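import Mathlib

/-!
Existence of balanced positions for laminar families, for an abstract system `W` of windows:
every window meets aligned intervals exactly, and every interval whose length is not divisible
by `m` at most `⌈length * s / m⌉` times.
-/

namespace Pool.Agent.Helper57.CO

open Finset Classical

/-- Window systems of density `s / m`. -/
structure WinSys (m s : ℕ) (W : Set (ℕ → Prop)) : Prop where
  pos : 0 < m
  ex : ∀ w ∈ W, ∀ a b, a ≤ b → ((Ico (a * m) (b * m)).filter w).card = (b - a) * s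
  up : ∀ w ∈ W, ∀ u v, u ≤ v → ¬ m ∣ (v - u) →
    ((Ico u v).filter w).card ≤ ((v - u) * s + m - 1) / m

variable {α : Type*}

/-- `G` is met at most `⌈|G| * s / m⌉` times by every window. -/
def Good (m s : ℕ) (W : Set (ℕ → Prop)) (pos : α → ℕ) (G : Finset α) : Prop :=
  ∀ w ∈ W, (G.filter (fun x => w (pos x))).card ≤ (G.card * s + m - 1) / m

/-- The two types of members in a layout. -/
def Typ (m s : ℕ) (W : Set (ℕ → Prop)) (pos : α → ℕ) (P Q G : Finset α) : Prop :=
  (Disjoint G P ∧ Good m s W pos G) ∨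
  (¬ m ∣ G.card ∧ (∃ u v, (G ∩ P).image pos = Ico u v) ∧
    ∃ c, (G ∩ Q).card = c * m ∧ ∀ w ∈ W, ((G ∩ Q).filter (fun x => w (pos x))).card = c * s)

/-- Layouts. -/
def Lay (m s : ℕ) (W : Set (ℕ → Prop)) (F : Finset (Finset α)) (X : Finset α) : Prop :=
  ∃ (P Q : Finset α) (b : ℕ), Disjoint P Q ∧ P ∪ Q = X ∧ Q.card = b * m ∧
    ∀ o q, ∃ pos : α → ℕ, P.image pos = Ico o (o + P.card) ∧
      Q.image pos = Ico (q * m) ((q + b) * m) ∧ ∀ G ∈ F, Typ m s W pos P Q G

theorem card_filter_pos (pos : α → ℕ) (S : Finset α) (hS : Set.InjOn pos S) (p : ℕ → Prop) :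
    (S.filter (fun x => p (pos x))).card = ((S.image pos).filter p).card := by
  rw [filter_image, card_image_of_injOn]
  exact hS.mono (fun x hx => (mem_filter.mp hx).1)

theorem exists_pos (X : Finset α) (o : ℕ) : ∃ pos : α → ℕ, X.image pos = Ico o (o + X.card) := by
  have h : X.card = (Ico o (o + X.card)).card := by simp
  let e := Finset.equivOfCardEq h
  refine ⟨fun x => if hx : x ∈ X then (e ⟨x, hx⟩ : ℕ) else 0, ?_⟩
  ext t
  constructor
  · intro ht
    obtain ⟨x, hx, rfl⟩ := mem_image.mp ht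
    rw [dif_pos hx]
    exact (e ⟨x, hx⟩).2
  · intro ht
    refine mem_image.mpr ⟨(e.symm ⟨t, ht⟩ : α), (e.symm ⟨t, ht⟩).2, ?_⟩
    rw [dif_pos (e.symm ⟨t, ht⟩).2]
    simp

theorem lay_empty (m s : ℕ) (W : Set (ℕ → Prop)) (X : Finset α) : Lay m s W ∅ X := by
  refine ⟨X, ∅, 0, disjoint_empty_right _, union_empty _, by simp, ?_⟩
  intro o q
  obtain ⟨pos, hpos⟩ := exists_pos X o
  exact ⟨pos, hpos, by simp, by simp⟩

theorem inj_P {pos : α → ℕ} {P : Finset α} {o : ℕ} (h : P.image pos = Ico o (o + P.card)) :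
    Set.InjOn pos P := by
  rw [← card_image_iff, h]
  simp

theorem inj_Q {k : ℕ} {pos : α → ℕ} {Q : Finset α} {q b : ℕ} (hb : Q.card = b * k)
    (h : Q.image pos = Ico (q * k) ((q + b) * k)) : Set.InjOn pos Q := by
  rw [← card_image_iff, h, hb, Nat.card_Ico, Nat.add_mul]
  omega

theorem Typ.good {m s : ℕ} {W : Set (ℕ → Prop)} (hW : WinSys m s W) {pos : α → ℕ}
    {P Q G : Finset α} (h : Typ m s W pos P Q G) (hPQ : Disjoint P Q) (hG : G ⊆ P ∪ Q)
    (hP : Set.InjOn pos P) : Good m s W pos G := by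
  have hm := hW.pos
  rcases h with ⟨_, h⟩ | ⟨hdvd, ⟨u, v, huv⟩, c, hc, hQ⟩
  · exact h
  intro w hw
  have hsplit : G = (G ∩ P) ∪ (G ∩ Q) := by
    rw [← inter_union_distrib_left, inter_eq_left.mpr hG]
  have hdisj : Disjoint (G ∩ P) (G ∩ Q) :=
    hPQ.mono inter_subset_right inter_subset_right
  have hinj : Set.InjOn pos (G ∩ P : Finset α) :=
    hP.mono (by intro x hx; exact mem_coe.mpr (mem_inter.mp (mem_coe.mp hx)).2)
  have hcP : (G ∩ P).card = v - u := by
    rw [← card_image_of_injOn hinj, huv, Nat.card_Ico]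
  have hcG : G.card = (v - u) + c * m := by
    conv_lhs => rw [hsplit]
    rw [card_union_of_disjoint hdisj, hcP, hc]
  have hndvd : ¬ m ∣ (v - u) := by
    intro h4
    apply hdvd
    rw [hcG]
    exact dvd_add h4 (dvd_mul_left _ _)
  have huv' : u ≤ v := by
    by_contra h
    apply hndvd
    rw [Nat.sub_eq_zero_of_le (by omega)]
    exact dvd_zero _
  have hfP : ((G ∩ P).filter (fun x => w (pos x))).card ≤ ((v - u) * s + m - 1) / m := by
    rw [card_filter_pos pos _ hinj, huv]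
    exact hW.up w hw u v huv' hndvd
  have hf : (G.filter (fun x => w (pos x))).card =
      ((G ∩ P).filter (fun x => w (pos x))).card +
      ((G ∩ Q).filter (fun x => w (pos x))).card := by
    conv_lhs => rw [hsplit]
    rw [filter_union, card_union_of_disjoint]
    exact disjoint_filter_filter hdisj
  rw [hf, hQ w hw, hcG]
  have h1 : ((v - u + c * m) * s + m - 1) / m = ((v - u) * s + m - 1) / m + c * s := by
    have : (v - u + c * m) * s + m - 1 = ((v - u) * s + m - 1) + (c * s) * m := by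
      rw [Nat.add_mul, Nat.mul_right_comm c m s]
      omega
    rw [this, Nat.add_mul_div_right _ _ hm]
  omega

theorem lay_insert {m s : ℕ} {W : Set (ℕ → Prop)} (hW : WinSys m s W)
    {F : Finset (Finset α)} {X : Finset α}
    (hF : ∀ G ∈ F, G ⊆ X) (h : Lay m s W F X) : Lay m s W (insert X F) X := by
  have hm := hW.pos
  obtain ⟨P, Q, b, hPQ, hX, hb, H⟩ := h
  have hcard : X.card = P.card + Q.card := by rw [← hX, card_union_of_disjoint hPQ]
  by_cases hdvd : m ∣ X.card
  · obtain ⟨d, hd⟩ := hdvd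
    have hbm : b ≤ d := by
      by_contra hlt
      have h1 : m * (d + 1) ≤ m * b := Nat.mul_le_mul_left m (by omega)
      rw [Nat.mul_add] at h1
      rw [Nat.mul_comm b m] at hb
      omega
    have hPc : P.card = (d - b) * m := by
      rw [Nat.sub_mul, ← hb, Nat.mul_comm d m, ← hd]
      omega
    refine ⟨∅, X, d, disjoint_empty_left _, empty_union _, by rw [hd, Nat.mul_comm], ?_⟩
    intro o q
    obtain ⟨pos, hp1, hp2, hp3⟩ := H ((q + b) * m) q
    have himg : X.image pos = Ico (q * m) ((q + d) * m) := by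
      rw [← hX, image_union, hp1, hp2, hPc, ← Nat.add_mul]
      have h1 : q + b + (d - b) = q + d := by omega
      rw [h1]
      have h2 : q * m ≤ (q + b) * m := Nat.mul_le_mul_right m (by omega)
      have h3 : (q + b) * m ≤ (q + d) * m := Nat.mul_le_mul_right m (by omega)
      ext t
      simp only [mem_union, mem_Ico]
      omega
    have hinjX : Set.InjOn pos X := by
      rw [← card_image_iff, himg, hd, Nat.card_Ico, Nat.add_mul, Nat.mul_comm m d]
      omega
    refine ⟨pos, by simp, himg, ?_⟩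
    intro G hG
    rcases mem_insert.mp hG with rfl | hG
    · refine Or.inl ⟨disjoint_empty_right _, ?_⟩
      intro w hw
      rw [card_filter_pos pos _ hinjX, himg, hW.ex w hw q (q + d) (by omega), hd]
      have : m * d * s + m - 1 = (m - 1) + m * (d * s) := by
        rw [Nat.mul_assoc]
        omega
      rw [this, Nat.add_mul_div_left _ _ hm, Nat.div_eq_of_lt (by omega)]
      simp
    · refine Or.inl ⟨disjoint_empty_right _, ?_⟩
      exact (hp3 G hG).good hW hPQ (by rw [hX]; exact hF G hG) (inj_P hp1)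
  · refine ⟨P, Q, b, hPQ, hX, hb, ?_⟩
    intro o q
    obtain ⟨pos, hp1, hp2, hp3⟩ := H o q
    refine ⟨pos, hp1, hp2, ?_⟩
    intro G hG
    rcases mem_insert.mp hG with rfl | hG
    · have hP : P ⊆ G := by rw [← hX]; exact subset_union_left
      have hQ : Q ⊆ G := by rw [← hX]; exact subset_union_right
      refine Or.inr ⟨hdvd, ⟨o, o + P.card, by rw [inter_eq_right.mpr hP, hp1]⟩,
        b, by rw [inter_eq_right.mpr hQ, hb], ?_⟩
      intro w hw
      rw [inter_eq_right.mpr hQ, card_filter_pos pos _ (inj_Q hb hp2), hp2,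
        hW.ex w hw q (q + b) (by omega)]
      congr 1
      omega
    · exact hp3 G hG

theorem Typ.congr {m s : ℕ} {W : Set (ℕ → Prop)} {pos pos' : α → ℕ} {P Q P' Q' G : Finset α}
    (h : Typ m s W pos P Q G) (hpos : ∀ x ∈ G, pos' x = pos x) (hP : G ∩ P' = G ∩ P)
    (hQ : G ∩ Q' = G ∩ Q) : Typ m s W pos' P' Q' G := by
  rcases h with ⟨h1, h2⟩ | ⟨h1, ⟨u, v, h2⟩, c, hc, h3⟩
  · left
    constructor
    · rw [disjoint_iff_inter_eq_empty, hP, ← disjoint_iff_inter_eq_empty]
      exact h1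
    · intro w hw
      rw [filter_congr (q := fun x => w (pos x)) (fun x hx => by rw [hpos x hx])]
      exact h2 w hw
  · right
    refine ⟨h1, ⟨u, v, ?_⟩, c, by rw [hQ, hc], ?_⟩
    · rw [hP, ← h2]
      exact image_congr (fun x hx => hpos x (mem_inter.mp (mem_coe.mp hx)).1)
    · intro w hw
      rw [hQ, filter_congr (q := fun x => w (pos x))
        (fun x hx => by rw [hpos x (mem_inter.mp hx).1])]
      exact h3 w hw

theorem lay_union {m s : ℕ} {W : Set (ℕ → Prop)} {F₁ F₂ : Finset (Finset α)} {X₁ X₂ : Finset α}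
    (hX : Disjoint X₁ X₂) (hF₁ : ∀ G ∈ F₁, G ⊆ X₁) (hF₂ : ∀ G ∈ F₂, G ⊆ X₂)
    (h₁ : Lay m s W F₁ X₁) (h₂ : Lay m s W F₂ X₂) : Lay m s W (F₁ ∪ F₂) (X₁ ∪ X₂) := by
  obtain ⟨P₁, Q₁, b₁, hPQ₁, hX₁, hb₁, H₁⟩ := h₁
  obtain ⟨P₂, Q₂, b₂, hPQ₂, hX₂, hb₂, H₂⟩ := h₂
  have hP₁ : P₁ ⊆ X₁ := by rw [← hX₁]; exact subset_union_left
  have hQ₁ : Q₁ ⊆ X₁ := by rw [← hX₁]; exact subset_union_right
  have hP₂ : P₂ ⊆ X₂ := by rw [← hX₂]; exact subset_union_left
  have hQ₂ : Q₂ ⊆ X₂ := by rw [← hX₂]; exact subset_union_right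
  have hPP : Disjoint P₁ P₂ := hX.mono hP₁ hP₂
  have hQQ : Disjoint Q₁ Q₂ := hX.mono hQ₁ hQ₂
  refine ⟨P₁ ∪ P₂, Q₁ ∪ Q₂, b₁ + b₂, ?_, ?_, ?_, ?_⟩
  · rw [disjoint_union_left, disjoint_union_right, disjoint_union_right]
    exact ⟨⟨hPQ₁, hX.mono hP₁ hQ₂⟩, ⟨hX.symm.mono hP₂ hQ₁, hPQ₂⟩⟩
  · rw [← hX₁, ← hX₂]
    ext x
    simp only [mem_union]
    tauto
  · rw [card_union_of_disjoint hQQ, hb₁, hb₂, Nat.add_mul]
  · intro o q
    obtain ⟨pos₁, hp1, hq1, ht1⟩ := H₁ o q
    obtain ⟨pos₂, hp2, hq2, ht2⟩ := H₂ (o + P₁.card) (q + b₁)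
    have hin1 : ∀ x ∈ X₁, (if x ∈ X₁ then pos₁ x else pos₂ x) = pos₁ x := fun x hx => if_pos hx
    have hin2 : ∀ x ∈ X₂, (if x ∈ X₁ then pos₁ x else pos₂ x) = pos₂ x :=
      fun x hx => if_neg (disjoint_right.mp hX hx)
    refine ⟨fun x => if x ∈ X₁ then pos₁ x else pos₂ x, ?_, ?_, ?_⟩
    · rw [image_union, image_congr (s := P₁) (f := fun x => if x ∈ X₁ then pos₁ x else pos₂ x)
        (g := pos₁) (fun x hx => hin1 x (hP₁ (mem_coe.mp hx))),
        image_congr (s := P₂) (f := fun x => if x ∈ X₁ then pos₁ x else pos₂ x)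
        (g := pos₂) (fun x hx => hin2 x (hP₂ (mem_coe.mp hx))), hp1, hp2,
        card_union_of_disjoint hPP]
      ext t
      simp only [mem_union, mem_Ico]
      omega
    · rw [image_union, image_congr (s := Q₁) (f := fun x => if x ∈ X₁ then pos₁ x else pos₂ x)
        (g := pos₁) (fun x hx => hin1 x (hQ₁ (mem_coe.mp hx))),
        image_congr (s := Q₂) (f := fun x => if x ∈ X₁ then pos₁ x else pos₂ x)
        (g := pos₂) (fun x hx => hin2 x (hQ₂ (mem_coe.mp hx))), hq1, hq2]
      have h1 : q * m ≤ (q + b₁) * m := Nat.mul_le_mul_right m (by omega)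
      have h2 : (q + b₁) * m ≤ (q + b₁ + b₂) * m := Nat.mul_le_mul_right m (by omega)
      rw [← Nat.add_assoc]
      ext t
      simp only [mem_union, mem_Ico]
      omega
    · intro G hG
      rcases mem_union.mp hG with hG | hG
      · have hGX := hF₁ G hG
        refine (ht1 G hG).congr (fun x hx => hin1 x (hGX hx)) ?_ ?_
        · rw [inter_union_distrib_left,
            disjoint_iff_inter_eq_empty.mp (hX.mono hGX hP₂), union_empty]
        · rw [inter_union_distrib_left,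
            disjoint_iff_inter_eq_empty.mp (hX.mono hGX hQ₂), union_empty]
      · have hGX := hF₂ G hG
        refine (ht2 G hG).congr (fun x hx => hin2 x (hGX hx)) ?_ ?_
        · rw [inter_union_distrib_left,
            disjoint_iff_inter_eq_empty.mp (hX.symm.mono hGX hP₁), empty_union]
        · rw [inter_union_distrib_left,
            disjoint_iff_inter_eq_empty.mp (hX.symm.mono hGX hQ₁), empty_union]

theorem lay_laminar {m s : ℕ} {W : Set (ℕ → Prop)} (hW : WinSys m s W) (n : ℕ) :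
    ∀ (F : Finset (Finset α)), F.card ≤ n →
    (∀ A ∈ F, ∀ B ∈ F, A ⊆ B ∨ B ⊆ A ∨ Disjoint A B) →
    ∀ X, (∀ G ∈ F, G ⊆ X) → Lay m s W F X := by
  induction n with
  | zero =>
    intro F hF _ X _
    have : F = ∅ := card_eq_zero.mp (by omega)
    rw [this]
    exact lay_empty m s W X
  | succ n ih =>
    intro F hF hlam X hX
    rcases F.eq_empty_or_nonempty with rfl | hne
    · exact lay_empty m s W X
    obtain ⟨G₀, hG₀, hmax⟩ := exists_max_image F card hne
    have hlt1 : (F.filter (fun G => G ⊆ G₀ ∧ G ≠ G₀)).card < F.card :=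
      card_lt_card (by
        refine ⟨filter_subset _ _, fun h => ?_⟩
        exact (mem_filter.mp (h hG₀)).2.2 rfl)
    have hlt2 : (F.filter (fun G => ¬ G ⊆ G₀)).card < F.card :=
      card_lt_card (by
        refine ⟨filter_subset _ _, fun h => ?_⟩
        exact (mem_filter.mp (h hG₀)).2 (Subset.refl _))
    have hsub1 : ∀ G ∈ F.filter (fun G => G ⊆ G₀ ∧ G ≠ G₀), G ⊆ G₀ :=
      fun G hG => (mem_filter.mp hG).2.1
    have h1 := ih (F.filter (fun G => G ⊆ G₀ ∧ G ≠ G₀)) (by omega)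
      (fun A hA B hB => hlam A (mem_filter.mp hA).1 B (mem_filter.mp hB).1) G₀ hsub1
    have hsub2 : ∀ G ∈ F.filter (fun G => ¬ G ⊆ G₀), G ⊆ X \ G₀ := by
      intro G hG
      obtain ⟨hGF, hGn⟩ := mem_filter.mp hG
      have hd : Disjoint G G₀ := by
        rcases hlam G hGF G₀ hG₀ with h | h | h
        · exact absurd h hGn
        · exfalso
          apply hGn
          rw [eq_of_subset_of_card_le h (hmax G hGF)]
        · exact h
      intro x hx
      exact mem_sdiff.mpr ⟨hX G hGF hx, disjoint_left.mp hd hx⟩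
    have h2 := ih (F.filter (fun G => ¬ G ⊆ G₀)) (by omega)
      (fun A hA B hB => hlam A (mem_filter.mp hA).1 B (mem_filter.mp hB).1) (X \ G₀) hsub2
    have h1' := lay_insert hW hsub1 h1
    have hsub1' : ∀ G ∈ insert G₀ (F.filter (fun G => G ⊆ G₀ ∧ G ≠ G₀)), G ⊆ G₀ := by
      intro G hG
      rcases mem_insert.mp hG with rfl | hG
      · exact Subset.refl _
      · exact hsub1 G hG
    have h3 := lay_union disjoint_sdiff hsub1' hsub2 h1' h2
    have e1 : G₀ ∪ X \ G₀ = X := union_sdiff_of_subset (hX G₀ hG₀)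
    have e2 : insert G₀ (F.filter (fun G => G ⊆ G₀ ∧ G ≠ G₀)) ∪ F.filter (fun G => ¬ G ⊆ G₀)
        = F := by
      ext G
      simp only [mem_union, mem_insert, mem_filter]
      constructor
      · rintro ((rfl | h) | h)
        · exact hG₀
        · exact h.1
        · exact h.1
      · intro h
        by_cases h4 : G ⊆ G₀
        · by_cases h5 : G = G₀
          · exact Or.inl (Or.inl h5)
          · exact Or.inl (Or.inr ⟨h, h4, h5⟩)
        · exact Or.inr ⟨h, h4⟩
    rwa [e1, e2] at h3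

/-- **Balanced positions.** -/
theorem balanced {m s g : ℕ} {W : Set (ℕ → Prop)} (hW : WinSys m s W) (F : Finset (Finset α))
    (hlam : ∀ A ∈ F, ∀ B ∈ F, A ⊆ B ∨ B ⊆ A ∨ Disjoint A B) (X : Finset α)
    (hX : ∀ G ∈ F, G ⊆ X) (hr : X.card = g * m) :
    ∃ pos : α → ℕ, X.image pos = range (g * m) ∧ ∀ G ∈ F, Good m s W pos G := by
  obtain ⟨P, Q, b, hPQ, hPX, hb, H⟩ := lay_laminar hW F.card F le_rfl hlam X hX
  have hcard : X.card = P.card + Q.card := by rw [← hPX, card_union_of_disjoint hPQ]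
  obtain ⟨pos, hp1, hp2, hp3⟩ := H (b * m) 0
  refine ⟨pos, ?_, ?_⟩
  · rw [← hPX, image_union, hp1, hp2, Nat.zero_mul, Nat.zero_add]
    ext t
    simp only [mem_union, mem_Ico, mem_range]
    omega
  · intro G hG
    exact (hp3 G hG).good hW hPQ (by rw [hPX]; exact hX G hG) (inj_P hp1)

end Pool.Agent.Helper57.CO
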