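import Mathlib
import Pool.Agent.Helper57.CO.Layout

/-!
The window system of density `s / m` (balanced sets with a phase shift at a column boundary).
-/

namespace Pool.Agent.Helper57.CO

open Finset Classical

/-- The balanced set with phase `ρ`. -/
def wp (m s : ℕ) (ρ t : ℤ) : Prop := (t * s - ρ) % m < s

/-- The window: phase `ρ` from `g * m` on, phase `ρ + 1` before. -/
def win (m s g : ℕ) (ρ : ℤ) (t : ℕ) : Prop :=
  (g * m ≤ t ∧ wp m s ρ t) ∨ (t < g * m ∧ wp m s (ρ + 1) t)

/-- All windows. -/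
def wins (m s : ℕ) : Set (ℕ → Prop) := {w | ∃ g ρ, w = win m s g ρ}

/-- Cumulative function. -/
def Ph (m s : ℕ) (ρ x : ℤ) : ℤ := ((x - 1) * s - ρ) / m

theorem step (m s : ℕ) (hm : 0 < m) (hs : s ≤ m) (ρ t : ℤ) :
    Ph m s ρ (t + 1) - Ph m s ρ t = if wp m s ρ t then 1 else 0 := by
  unfold Ph wp
  have hm' : (0 : ℤ) < m := by exact_mod_cast hm
  have hs' : (s : ℤ) ≤ m := by exact_mod_cast hs
  have hs0 : (0 : ℤ) ≤ s := by positivity
  set x := t * s - ρ with hx
  have e1 : (t + 1 - 1) * (s : ℤ) - ρ = x := by rw [hx]; ring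
  have e2 : (t - 1) * (s : ℤ) - ρ = x - s := by rw [hx]; ring
  rw [e1, e2]
  have h1 := Int.mul_ediv_add_emod x m
  have h2 := Int.emod_nonneg x hm'.ne'
  have h3 := Int.emod_lt_of_pos x hm'
  split_ifs with h
  · have h4 : (x - s) / (m : ℤ) = x / m - 1 := by
      rw [Int.ediv_eq_iff_of_pos hm']
      constructor
      · nlinarith
      · nlinarith
    rw [h4]
    ring
  · have h4 : (x - s) / (m : ℤ) = x / m := by
      rw [Int.ediv_eq_iff_of_pos hm']
      constructor
      · nlinarith
      · nlinarith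
    rw [h4]
    ring

theorem count (m s : ℕ) (hm : 0 < m) (hs : s ≤ m) (ρ : ℤ) (u v : ℕ) (huv : u ≤ v) :
    (((Ico u v).filter (fun t : ℕ => wp m s ρ t)).card : ℤ) = Ph m s ρ v - Ph m s ρ u := by
  induction v, huv using Nat.le_induction with
  | base => simp
  | succ v hv ih =>
    have h1 : Ico u (v + 1) = insert v (Ico u v) := by
      ext t
      simp only [mem_insert, mem_Ico]
      omega
    have h2 := step m s hm hs ρ v
    rw [h1, filter_insert]
    push_cast
    split_ifs with h
    · rw [card_insert_of_notMem (by simp), if_pos h] at *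
      push_cast
      linarith
    · rw [if_neg h] at h2
      linarith

theorem Ph_mul (m s : ℕ) (hm : 0 < m) (ρ : ℤ) (a : ℕ) :
    Ph m s ρ ((a * m : ℕ) : ℤ) = (-(s : ℤ) - ρ) / m + a * s := by
  unfold Ph
  have hm' : (m : ℤ) ≠ 0 := by exact_mod_cast hm.ne'
  have : (((a * m : ℕ) : ℤ) - 1) * s - ρ = (-(s : ℤ) - ρ) + (a * s) * m := by
    push_cast
    ring
  rw [this, Int.add_mul_ediv_right _ _ hm']

theorem filter_ge (m s g : ℕ) (ρ : ℤ) (u v : ℕ) (h : g * m ≤ u) :
    (Ico u v).filter (win m s g ρ) = (Ico u v).filter (fun t : ℕ => wp m s ρ t) := by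
  apply filter_congr
  intro t ht
  have := mem_Ico.mp ht
  unfold win
  constructor
  · rintro (h | h)
    · exact h.2
    · omega
  · intro h'
    exact Or.inl ⟨by omega, h'⟩

theorem filter_le (m s g : ℕ) (ρ : ℤ) (u v : ℕ) (h : v ≤ g * m) :
    (Ico u v).filter (win m s g ρ) = (Ico u v).filter (fun t : ℕ => wp m s (ρ + 1) t) := by
  apply filter_congr
  intro t ht
  have := mem_Ico.mp ht
  unfold win
  constructor
  · rintro (h | h)
    · omega
    · exact h.2
  · intro h'
    exact Or.inr ⟨by omega, h'⟩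

theorem split_card (p : ℕ → Prop) (u h v : ℕ) (h1 : u ≤ h) (h2 : h ≤ v) :
    ((Ico u v).filter p).card = ((Ico u h).filter p).card + ((Ico h v).filter p).card := by
  rw [← card_union_of_disjoint, ← filter_union]
  · congr 2
    ext t
    simp only [mem_union, mem_Ico]
    omega
  · apply disjoint_filter_filter
    rw [disjoint_left]
    intro t ht1 ht2
    simp only [mem_Ico] at ht1 ht2
    omega

theorem ceil_bound (m : ℕ) (hm : 0 < m) (x y : ℤ) (D : ℕ) (h : x - y = D) :
    x / m - y / m ≤ (((D + m - 1) / m : ℕ) : ℤ) := by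
  have hm' : (0 : ℤ) < m := by exact_mod_cast hm
  have h1 := Int.mul_ediv_add_emod x m
  have h2 := Int.emod_nonneg x hm'.ne'
  have h3 := Int.mul_ediv_add_emod y m
  have h4 := Int.emod_lt_of_pos y hm'
  have h5 := Nat.div_add_mod (D + m - 1) m
  have h6 := Nat.mod_lt (D + m - 1) hm
  generalize (D + m - 1) % m = r0 at h5 h6
  set e := (D + m - 1) / m with he
  have h7 : (m : ℤ) * e + (r0 : ℤ) = D + m - 1 := by
    have : ((m * e + r0 : ℕ) : ℤ) = ((D + m - 1 : ℕ) : ℤ) := by rw [h5]
    push_cast at this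
    rw [this]
    omega
  have h8 : (r0 : ℤ) < m := by exact_mod_cast h6
  have h9 : (m : ℤ) * (x / m - y / m) < m * (e + 1) := by nlinarith
  have h10 := lt_of_mul_lt_mul_left h9 hm'.le
  omega

theorem wins_sys {m s : ℕ} (hm : 0 < m) (hs : s ≤ m) (hc : Nat.Coprime m s) :
    WinSys m s (wins m s) := by
  refine ⟨hm, ?_, ?_⟩
  · rintro w ⟨g, ρ, rfl⟩ a b hab
    have hab' : a * m ≤ b * m := Nat.mul_le_mul_right m hab
    have fin : ∀ c : ℕ, (c : ℤ) = b * s - a * s → c = (b - a) * s := by
      intro c hc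
      zify [hab]
      linarith
    rcases Nat.le_total g a with h | h
    · have h' : g * m ≤ a * m := Nat.mul_le_mul_right m h
      rw [filter_ge m s g ρ _ _ h']
      apply fin
      rw [count m s hm hs ρ _ _ hab', Ph_mul m s hm, Ph_mul m s hm]
      ring
    rcases Nat.le_total b g with h2 | h2
    · have h' : b * m ≤ g * m := Nat.mul_le_mul_right m h2
      rw [filter_le m s g ρ _ _ h']
      apply fin
      rw [count m s hm hs (ρ + 1) _ _ hab', Ph_mul m s hm, Ph_mul m s hm]
      ring
    · have h3 : a * m ≤ g * m := Nat.mul_le_mul_right m h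
      have h4 : g * m ≤ b * m := Nat.mul_le_mul_right m h2
      rw [split_card _ _ _ _ h3 h4, filter_le m s g ρ _ _ le_rfl, filter_ge m s g ρ _ _ le_rfl]
      apply fin
      push_cast
      rw [count m s hm hs (ρ + 1) _ _ h3, count m s hm hs ρ _ _ h4, Ph_mul m s hm,
        Ph_mul m s hm, Ph_mul m s hm, Ph_mul m s hm]
      ring
  · rintro w ⟨g, ρ, rfl⟩ u v huv hdvd
    have hD : ((v : ℤ) - 1) * s - ρ - (((u : ℤ) - 1) * s - ρ) = (((v - u) * s : ℕ) : ℤ) := by
      push_cast [Nat.cast_sub huv]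
      ring
    rcases Nat.le_total (g * m) u with h | h
    · rw [filter_ge m s g ρ _ _ h]
      zify
      rw [count m s hm hs ρ _ _ huv]
      exact_mod_cast ceil_bound m hm _ _ _ hD
    rcases Nat.le_total v (g * m) with h2 | h2
    · rw [filter_le m s g ρ _ _ h2]
      have hD' : ((v : ℤ) - 1) * s - (ρ + 1) - (((u : ℤ) - 1) * s - (ρ + 1)) =
          (((v - u) * s : ℕ) : ℤ) := by
        push_cast [Nat.cast_sub huv]
        ring
      zify
      rw [count m s hm hs (ρ + 1) _ _ huv]
      exact_mod_cast ceil_bound m hm _ _ _ hD'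
    · rw [split_card _ _ _ _ h h2, filter_le m s g ρ _ _ le_rfl, filter_ge m s g ρ _ _ le_rfl]
      have hndvd : ¬ m ∣ (v - u) * s := fun h => hdvd (hc.dvd_of_dvd_mul_right h)
      have key : ((((Ico u (g * m)).filter (fun t : ℕ => wp m s (ρ + 1) t)).card +
          ((Ico (g * m) v).filter (fun t : ℕ => wp m s ρ t)).card : ℕ) : ℤ) ≤
          ((((v - u) * s + 1 + m - 1) / m : ℕ) : ℤ) := by
        push_cast
        rw [count m s hm hs (ρ + 1) _ _ h, count m s hm hs ρ _ _ h2, Ph_mul m s hm,
          Ph_mul m s hm]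
        have hmono : (-(s : ℤ) - (ρ + 1)) / m ≤ (-(s : ℤ) - ρ) / m :=
          Int.ediv_le_ediv (by exact_mod_cast hm) (by linarith)
        have hD' : ((v : ℤ) - 1) * s - ρ - (((u : ℤ) - 1) * s - (ρ + 1)) =
            (((v - u) * s + 1 : ℕ) : ℤ) := by
          push_cast [Nat.cast_sub huv]
          ring
        have hcb := ceil_bound m hm _ _ _ hD'
        push_cast at hcb
        unfold Ph
        linarith
      have h3 : ((v - u) * s + 1 + m - 1) / m ≤ ((v - u) * s + m - 1) / m := by
        set D := (v - u) * s with hDd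
        have h5 : 0 < D % m := Nat.pos_of_ne_zero (fun h => hndvd (Nat.dvd_of_mod_eq_zero h))
        have h6 := Nat.div_add_mod D m
        have h7 := Nat.mod_lt D hm
        have h8 : (D + 1 + m - 1) / m = D / m + 1 := by
          have : D + 1 + m - 1 = D + m := by omega
          rw [this, Nat.add_div_right _ hm]
        rw [h8, Nat.le_div_iff_mul_le hm, Nat.mul_comm, Nat.mul_add]
        omega
      exact (by exact_mod_cast key : _ ≤ _).trans h3

end Pool.Agent.Helper57.CO
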