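import Mathlib

/-!
Cyclic orderings of matroids: definitions.
-/

namespace Pool.Agent.Helper57.CO

variable {α β : Type*}

/-- The cyclic window of length `r` which starts at the position `i` of the cyclic sequence
`σ 0, σ 1, ..., σ (n - 1)` (indices are taken modulo `n`). -/
def window {n : ℕ} (σ : Fin n → α) (r : ℕ) (i : Fin n) : Set α :=
  {x | ∃ j < r, x = σ ⟨(i.val + j) % n, Nat.mod_lt _ (Fin.pos i)⟩}

/-- The ground set of `M` has a cyclic ordering in which every window of `r` cyclically
consecutive elements is a base. -/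
def CyclicallyOrderable (M : Matroid α) (r : ℕ) : Prop :=
  ∃ σ : Fin M.E.ncard → α, Function.Injective σ ∧ Set.range σ = M.E ∧
    ∀ i, M.IsBase (window σ r i)

/-- Any two members are comparable or disjoint. -/
def LaminarFamily (F : Set (Set β)) : Prop :=
  ∀ A ∈ F, ∀ B ∈ F, A ⊆ B ∨ B ⊆ A ∨ Disjoint A B

/-- `M` is a laminar matroid: a set is independent if and only if it has at most `c A` elements
in `A`, for every member `A` of a laminar family. -/
def IsLaminar (M : Matroid α) : Prop :=
  ∃ (F : Set (Set α)) (c : Set α → ℕ), LaminarFamily F ∧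
    ∀ I ⊆ M.E, (M.Indep I ↔ ∀ A ∈ F, (I ∩ A).ncard ≤ c A)

/-- `M` is induced by the bipartite graph `R` from the laminar matroid on `β` given by the laminar
family `F` and the capacities `c`: a set is independent if and only if it can be matched
(injectively, along edges of `R`) to a set having at most `c A` elements in `A` for `A ∈ F`. -/
def InducedFromLaminar (M : Matroid α) (R : α → β → Prop) (F : Set (Set β)) (c : Set β → ℕ) :
    Prop :=
  LaminarFamily F ∧ ∀ I ⊆ M.E, (M.Indep I ↔
    ∃ f : α → β, Set.InjOn f I ∧ (∀ x ∈ I, R x (f x)) ∧ ∀ A ∈ F, (f '' I ∩ A).ncard ≤ c A)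

end Pool.Agent.Helper57.CO
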