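import Mathlib
import Pool.Agent.Helper57.CO.Core
import Pool.Agent.Helper57.CO.Defs

/-!
Balanced cyclic orders for laminar families.
-/

namespace Pool.Agent.Helper57.CO

open Finset Classical

variable {α : Type*}

theorem window_ncard {n : ℕ} (σ : Fin n → α) (hσ : Function.Injective σ) (r : ℕ) (hr : r ≤ n)
    (i : Fin n) : (window σ r i).ncard = r := by
  have h1 : window σ r i = (fun j : ℕ => σ ⟨(i.val + j) % n, Nat.mod_lt _ (Fin.pos i)⟩) ''
      (Finset.range r : Finset ℕ) := by
    ext x
    unfold window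
    simp only [Set.mem_ofPred_eq, Set.mem_image, mem_coe, mem_range]
    constructor
    · rintro ⟨j, hj, rfl⟩
      exact ⟨j, hj, rfl⟩
    · rintro ⟨j, hj, rfl⟩
      exact ⟨j, hj, rfl⟩
  rw [h1, Set.InjOn.ncard_image, Set.ncard_coe_finset, card_range]
  intro a ha b hb hab
  have ha' := mem_range.mp (mem_coe.mp ha)
  have hb' := mem_range.mp (mem_coe.mp hb)
  have h2 := hσ hab
  have h3 : (i.val + a) % n = (i.val + b) % n := by simpa using h2
  have h4 : i.val + a ≡ i.val + b [MOD n] := h3
  have h5 : a ≡ b [MOD n] := Nat.ModEq.add_left_cancel' _ h4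
  exact Nat.ModEq.eq_of_lt_of_lt h5 (by omega) (by omega)

/-- Division by `s` modulo `m`. -/
theorem exists_tau (m s : ℕ) (hm : 0 < m) (hc : Nat.Coprime m s) :
    ∃ τ : ℕ → ℕ, ∀ q, τ q < m ∧ ((τ q * s : ℕ) : ℤ) ≡ q [ZMOD m] := by
  have h1 : IsCoprime (m : ℤ) (s : ℤ) := Nat.isCoprime_iff_coprime.mpr hc
  obtain ⟨b, a, hab⟩ := h1
  have hm' : (0 : ℤ) < m := by exact_mod_cast hm
  refine ⟨fun q => ((q * a) % (m : ℤ)).toNat, fun q => ⟨?_, ?_⟩⟩
  · have h2 := Int.emod_lt_of_pos ((q : ℤ) * a) hm'
    have h3 := Int.emod_nonneg ((q : ℤ) * a) hm'.ne'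
    show ((q * a) % (m : ℤ)).toNat < m
    omega
  · have h3 := Int.emod_nonneg ((q : ℤ) * a) hm'.ne'
    push_cast
    rw [Int.toNat_of_nonneg h3]
    have h4 : (q : ℤ) * a % m ≡ q * a [ZMOD m] := Int.mod_modEq _ _
    have h5 := h4.mul_right (s : ℤ)
    refine h5.trans ?_
    rw [Int.modEq_iff_dvd]
    refine ⟨q * b, ?_⟩
    have : (q : ℤ) - q * a * s = q * (1 - a * s) := by ring
    rw [this, ← hab]
    ring

theorem cyc (X : Finset α) (r : ℕ) (hr : r ≤ X.card) (F : Finset (Finset α))
    (hlam : ∀ A ∈ F, ∀ B ∈ F, A ⊆ B ∨ B ⊆ A ∨ Disjoint A B) (hF : ∀ G ∈ F, G ⊆ X) :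
    ∃ σ : Fin X.card → α, Function.Injective σ ∧ Set.range σ = X ∧
      ∀ i, ∀ G ∈ F, ∀ c, G.card * r ≤ c * X.card → (window σ r i ∩ G).ncard ≤ c := by
  rcases Nat.eq_zero_or_pos X.card with h0 | hpos
  · have hX : X = ∅ := card_eq_zero.mp h0
    subst hX
    exact ⟨fun i => absurd i.2 (by simp), fun i => absurd i.2 (by simp), by
      ext x
      simp only [coe_empty, Set.mem_empty_iff_false, iff_false, Set.mem_range, not_exists]
      exact fun i => absurd i.2 (by simp), fun i => absurd i.2 (by simp)⟩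
  set n := X.card with hn
  set g := Nat.gcd n r with hg
  have hgpos : 0 < g := Nat.gcd_pos_of_pos_left r hpos
  obtain ⟨m, hm⟩ : g ∣ n := Nat.gcd_dvd_left n r
  obtain ⟨s, hs⟩ : g ∣ r := Nat.gcd_dvd_right n r
  have hmpos : 0 < m := by
    rcases Nat.eq_zero_or_pos m with h | h
    · rw [h, Nat.mul_zero] at hm
      omega
    · exact h
  have hsm : s ≤ m := by
    have : g * s ≤ g * m := by rw [← hm, ← hs]; exact hr
    exact Nat.le_of_mul_le_mul_left this hgpos
  have hcop : Nat.Coprime m s := by
    have h1 : g * Nat.gcd m s = g := by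
      rw [← Nat.gcd_mul_left, ← hm, ← hs]
    exact Nat.eq_of_mul_eq_mul_left hgpos (by rw [h1, Nat.mul_one])
  have hW := wins_sys hmpos hsm hcop
  have hcardX : X.card = g * m := by rw [← hn, hm]
  obtain ⟨pos, hp1, hp2⟩ := balanced (g := g) hW F hlam X hF hcardX
  have hinj : Set.InjOn pos X := by
    rw [← card_image_iff, hp1, card_range, hcardX]
  have hsurj : ∀ t, t < g * m → ∃ x ∈ X, pos x = t := by
    intro t ht
    have : t ∈ X.image pos := by rw [hp1]; exact mem_range.mpr ht
    obtain ⟨x, hx, h⟩ := mem_image.mp this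
    exact ⟨x, hx, h⟩
  obtain ⟨x0, _⟩ := card_pos.mp hpos
  have : Nonempty α := ⟨x0⟩
  choose! inv hinv1 hinv2 using hsurj
  obtain ⟨τ, hτ⟩ := exists_tau m s hmpos hcop
  set θ : ℕ → ℕ := fun p => (p % g) * m + τ (p / g) with hθ
  have hθlt : ∀ p, θ p < g * m := by
    intro p
    have h1 := Nat.mod_lt p hgpos
    have h2 := (hτ (p / g)).1
    have h3 : (p % g + 1) * m ≤ g * m := Nat.mul_le_mul_right m h1
    rw [Nat.add_mul] at h3
    simp only [hθ]
    omega
  have hθinj : ∀ p < g * m, ∀ p' < g * m, θ p = θ p' → p = p' := by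
    intro p hp p' hp' h
    simp only [hθ] at h
    have h1 := (hτ (p / g)).1
    have h2 := (hτ (p' / g)).1
    have e1 : ((p % g) * m + τ (p / g)) / m = p % g := by
      rw [Nat.add_comm, Nat.add_mul_div_right _ _ hmpos, Nat.div_eq_of_lt h1, Nat.zero_add]
    have e2 : ((p' % g) * m + τ (p' / g)) / m = p' % g := by
      rw [Nat.add_comm, Nat.add_mul_div_right _ _ hmpos, Nat.div_eq_of_lt h2, Nat.zero_add]
    have h3 : p % g = p' % g := by rw [← e1, ← e2, h]
    have h4 : τ (p / g) = τ (p' / g) := by
      rw [h3] at h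
      omega
    have h5 : ((p / g : ℕ) : ℤ) ≡ ((p' / g : ℕ) : ℤ) [ZMOD m] :=
      ((hτ (p / g)).2.symm.trans (by rw [h4])).trans (hτ (p' / g)).2
    have h6 : p / g ≡ p' / g [MOD m] := Int.natCast_modEq_iff.mp h5
    have h7 : p / g < m := (Nat.div_lt_iff_lt_mul hgpos).mpr (by rw [Nat.mul_comm]; exact hp)
    have h8 : p' / g < m := (Nat.div_lt_iff_lt_mul hgpos).mpr (by rw [Nat.mul_comm]; exact hp')
    have h9 := Nat.ModEq.eq_of_lt_of_lt h6 h7 h8
    rw [← Nat.div_add_mod p g, ← Nat.div_add_mod p' g, h9, h3]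
  refine ⟨fun p => inv (θ p.val), ?_, ?_, ?_⟩
  · intro p p' h
    have h1 : pos (inv (θ p.val)) = pos (inv (θ p'.val)) := by
      simp only at h
      rw [h]
    rw [hinv2 _ (hθlt _), hinv2 _ (hθlt _)] at h1
    exact Fin.ext (hθinj _ (by rw [← hm]; exact p.2) _ (by rw [← hm]; exact p'.2) h1)
  · have hsub : Set.range (fun p : Fin n => inv (θ p.val)) ⊆ (X : Set α) := by
      rintro x ⟨p, rfl⟩
      exact hinv1 _ (hθlt _)
    refine Set.eq_of_subset_of_ncard_le hsub ?_ X.finite_toSet
    rw [Set.ncard_coe_finset, ← Set.image_univ, Set.ncard_image_of_injective, Set.ncard_univ,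
      Nat.card_eq_fintype_card, Fintype.card_fin]
    intro p p' h
    have h1 : pos (inv (θ p.val)) = pos (inv (θ p'.val)) := by
      simp only at h
      rw [h]
    rw [hinv2 _ (hθlt _), hinv2 _ (hθlt _)] at h1
    exact Fin.ext (hθinj _ (by rw [← hm]; exact p.2) _ (by rw [← hm]; exact p'.2) h1)
  · intro i G hG c hc
    -- every window element satisfies the window predicate
    have key : ∀ x ∈ window (fun p : Fin n => inv (θ p.val)) r i,
        win m s (i.val % g) ((i.val / g : ℕ) : ℤ) (pos x) := by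
      rintro x ⟨j, hj, rfl⟩
      simp only
      rw [hinv2 _ (hθlt _)]
      set Y := i.val + j with hY
      have hq : Y % n / g = (Y / g) % m := by
        rw [hm, Nat.mod_mul, Nat.add_mul_div_left _ _ hgpos,
          Nat.div_eq_of_lt (Nat.mod_lt _ hgpos), Nat.zero_add]
      have hcol : Y % n % g = Y % g := by
        rw [hm]
        exact Nat.mod_mul_right_mod _ _ _
      set γ := i.val % g with hγ
      set ρ := i.val / g with hρ
      set J := (γ + j) / g with hJ
      have hi : i.val = g * ρ + γ := (Nat.div_add_mod _ _).symm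
      have hYg : Y / g = ρ + J := by
        rw [hY, hi, Nat.add_assoc, Nat.add_comm, Nat.add_mul_div_left _ _ hgpos, Nat.add_comm]
      have hYc : Y % g = (γ + j) % g := by
        rw [hY, hi, Nat.add_assoc, Nat.add_comm, Nat.add_mul_mod_self_left]
      set col := (γ + j) % g with hcold
      have hdm : g * J + col = γ + j := Nat.div_add_mod _ _
      have hcollt : col < g := Nat.mod_lt _ hgpos
      have hJ0 : (0 : ℤ) ≤ (J : ℤ) := Int.natCast_nonneg _
      have hγlt : γ < g := Nat.mod_lt _ hgpos
      have hθY : θ (Y % n) = col * m + τ ((Y / g) % m) := by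
        simp only [hθ]
        rw [hq, hcol, hYc]
      have hτ' := (hτ ((Y / g) % m))
      have hmod : ((θ (Y % n) * s : ℕ) : ℤ) ≡ ρ + J [ZMOD m] := by
        rw [hθY]
        have e1 : (((col * m + τ ((Y / g) % m)) * s : ℕ) : ℤ) =
            (col * s) * m + ((τ ((Y / g) % m) * s : ℕ) : ℤ) := by
          push_cast
          ring
        rw [e1]
        have e2 : (col : ℤ) * s * m + ((τ ((Y / g) % m) * s : ℕ) : ℤ) ≡
            0 + (((Y / g) % m : ℕ) : ℤ) [ZMOD m] := by
          refine Int.ModEq.add ?_ hτ'.2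
          exact Int.modEq_zero_iff_dvd.mpr (dvd_mul_left _ _)
        refine e2.trans ?_
        rw [zero_add, ← Nat.cast_add, ← hYg, Int.natCast_modEq_iff]
        exact Nat.mod_modEq _ _
      have hjr : j < g * s := by rw [← hs]; exact hj
      unfold win
      rcases Nat.lt_or_ge col γ with hlt | hge
      · right
        constructor
        · rw [hθY]
          have h1 : (col + 1) * m ≤ γ * m := Nat.mul_le_mul_right m hlt
          rw [Nat.add_mul] at h1
          have := hτ'.1
          omega
        · unfold wp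
          have hJ1 : 1 ≤ J := by
            by_contra h
            have : J = 0 := by omega
            rw [this] at hdm
            omega
          have hJs : J ≤ s := by
            by_contra h
            have : g * (s + 1) ≤ g * J := Nat.mul_le_mul_left g (by omega)
            rw [Nat.mul_add] at this
            omega
          have e3 : ((θ (Y % n) : ℕ) : ℤ) * s - (ρ + 1) ≡ (J : ℤ) - 1 [ZMOD m] := by
            have h2 := hmod.sub_right ((ρ : ℤ) + 1)
            have e4 : (ρ : ℤ) + J - (ρ + 1) = J - 1 := by ring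
            rw [e4] at h2
            push_cast at h2 ⊢
            exact h2
          have hJ1' : (1 : ℤ) ≤ (J : ℤ) := by exact_mod_cast hJ1
          have hJs' : (J : ℤ) ≤ (s : ℤ) := by exact_mod_cast hJs
          have hsm' : (s : ℤ) ≤ (m : ℤ) := by exact_mod_cast hsm
          rw [e3, Int.emod_eq_of_lt (by linarith) (by linarith)]
          linarith
      · left
        constructor
        · rw [hθY]
          have h1 : γ * m ≤ col * m := Nat.mul_le_mul_right m hge
          omega
        · unfold wp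
          have hJs : J < s := by
            by_contra h
            have : g * s ≤ g * J := Nat.mul_le_mul_left g (by omega)
            omega
          have e3 : ((θ (Y % n) : ℕ) : ℤ) * s - ρ ≡ (J : ℤ) [ZMOD m] := by
            have h2 := hmod.sub_right (ρ : ℤ)
            have e4 : (ρ : ℤ) + J - ρ = J := by ring
            rw [e4] at h2
            push_cast at h2 ⊢
            exact h2
          have hJs' : (J : ℤ) < (s : ℤ) := by exact_mod_cast hJs
          have hsm' : (s : ℤ) ≤ (m : ℤ) := by exact_mod_cast hsm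
          rw [e3, Int.emod_eq_of_lt hJ0 (by linarith)]
          exact hJs'
    have h1 : (window (fun p : Fin n => inv (θ p.val)) r i ∩ G).ncard ≤
        ((G.filter (fun x => win m s (i.val % g) ((i.val / g : ℕ) : ℤ) (pos x)) :
          Finset α) : Set α).ncard := by
      apply Set.ncard_le_ncard _ (Finset.finite_toSet _)
      intro x hx
      exact mem_coe.mpr (mem_filter.mpr ⟨mem_coe.mp hx.2, key x hx.1⟩)
    rw [Set.ncard_coe_finset] at h1
    have h2 := hp2 G hG _ ⟨i.val % g, ((i.val / g : ℕ) : ℤ), rfl⟩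
    refine h1.trans (h2.trans ?_)
    have h3 : G.card * s ≤ c * m := by
      have : g * (G.card * s) ≤ g * (c * m) := by
        have e1 : g * (G.card * s) = G.card * r := by rw [hs]; ring
        have e2 : g * (c * m) = c * n := by rw [hm]; ring
        rw [e1, e2]
        exact hc
      exact Nat.le_of_mul_le_mul_left this hgpos
    have h4 : (G.card * s + m - 1) / m < c + 1 := by
      rw [Nat.div_lt_iff_lt_mul hmpos, Nat.add_mul]
      omega
    omega

end Pool.Agent.Helper57.CO
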