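import Mathlib
import Pool.Agent.Helper57.CO.Cyc

/-!
Cyclic orderings of matroids: the two applications.
-/

namespace Pool.Agent.Helper57.CO

open Finset Classical

variable {α β : Type*}

theorem union_card (X : Finset α) (k r : ℕ) (B : Fin k → Set α)
    (hd : ∀ i j, i ≠ j → Disjoint (B i) (B j)) (hu : ⋃ i, B i = X) (hc : ∀ i, (B i).ncard = r) :
    X.card = k * r := by
  have h1 : X = Finset.univ.biUnion (fun i => X.filter (fun x => x ∈ B i)) := by
    ext x
    simp only [mem_biUnion, mem_univ, true_and, mem_filter]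
    constructor
    · intro hx
      have : x ∈ ⋃ i, B i := by rw [hu]; exact mem_coe.mpr hx
      obtain ⟨i, hi⟩ := Set.mem_iUnion.mp this
      exact ⟨i, hx, hi⟩
    · rintro ⟨i, hx, _⟩
      exact hx
  rw [h1, card_biUnion]
  · have h2 : ∀ i ∈ (Finset.univ : Finset (Fin k)), (X.filter (fun x => x ∈ B i)).card = r := by
      intro i _
      rw [← hc i, ← Set.ncard_coe_finset]
      congr 1
      ext x
      simp only [coe_filter, Set.mem_ofPred_eq]
      constructor
      · exact fun h => h.2
      · intro h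
        refine ⟨?_, h⟩
        have : x ∈ ⋃ i, B i := Set.mem_iUnion.mpr ⟨i, h⟩
        rw [hu] at this
        exact mem_coe.mp this
    rw [sum_congr rfl h2, sum_const, card_univ, Fintype.card_fin, smul_eq_mul]
  · intro i _ j _ hij
    show Disjoint _ _
    rw [Finset.disjoint_left]
    intro x hx hx'
    exact Set.disjoint_left.mp (hd i j hij) (mem_filter.mp hx).2 (mem_filter.mp hx').2

theorem isBase_of_indep {M : Matroid α} (hE : M.E.Finite) {B W : Set α} (hB : M.IsBase B)
    (hW : M.Indep W) (hc : W.ncard = B.ncard) : M.IsBase W := by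
  obtain ⟨B', hB', hWB'⟩ := hW.exists_isBase_superset
  have h1 : B'.ncard = B.ncard := hB'.ncard_eq_ncard_of_isBase hB
  have h2 : W = B' := Set.eq_of_subset_of_ncard_le hWB' (by rw [h1, hc])
    (hE.subset hB'.subset_ground)
  rw [h2]
  exact hB'

theorem window_subset {n : ℕ} (σ : Fin n → α) (r : ℕ) (i : Fin n) :
    window σ r i ⊆ Set.range σ := by
  rintro x ⟨j, _, rfl⟩
  exact Set.mem_range_self _

/-- A laminar family can be pulled back; members of the pulled back family. -/
noncomputable def pull (X : Finset α) (F : Set (Set β)) (f : α → β) : Finset (Finset α) :=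
  X.powerset.filter (fun G => (∃ A ∈ F, G = X.filter (fun x => f x ∈ A)) ∨
    ∃ t, G = X.filter (fun x => f x = t))

theorem pull_laminar (X : Finset α) (F : Set (Set β)) (hF : LaminarFamily F) (f : α → β) :
    ∀ A ∈ pull X F f, ∀ B ∈ pull X F f, A ⊆ B ∨ B ⊆ A ∨ Disjoint A B := by
  have key : ∀ (P Q : β → Prop), ((∀ t, P t → Q t) ∨ (∀ t, Q t → P t) ∨ (∀ t, P t → ¬ Q t)) →
      (X.filter (fun x => P (f x)) ⊆ X.filter (fun x => Q (f x)) ∨
        X.filter (fun x => Q (f x)) ⊆ X.filter (fun x => P (f x)) ∨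
        Disjoint (X.filter (fun x => P (f x))) (X.filter (fun x => Q (f x)))) := by
    intro P Q h
    rcases h with h | h | h
    · left
      intro x hx
      rw [mem_filter] at hx ⊢
      exact ⟨hx.1, h _ hx.2⟩
    · right; left
      intro x hx
      rw [mem_filter] at hx ⊢
      exact ⟨hx.1, h _ hx.2⟩
    · right; right
      rw [Finset.disjoint_left]
      intro x hx hx'
      rw [mem_filter] at hx hx'
      exact h _ hx.2 hx'.2
  intro A hA B hB
  obtain ⟨_, hA⟩ := mem_filter.mp hA
  obtain ⟨_, hB⟩ := mem_filter.mp hB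
  rcases hA with ⟨A', hA', rfl⟩ | ⟨t, rfl⟩ <;> rcases hB with ⟨B', hB', rfl⟩ | ⟨t', rfl⟩
  · apply key (fun t => t ∈ A') (fun t => t ∈ B')
    rcases hF A' hA' B' hB' with h | h | h
    · exact Or.inl (fun t ht => h ht)
    · exact Or.inr (Or.inl (fun t ht => h ht))
    · exact Or.inr (Or.inr (fun t ht ht' => Set.disjoint_left.mp h ht ht'))
  · apply key (fun t => t ∈ A') (fun t => t = t')
    by_cases h : t' ∈ A'
    · exact Or.inr (Or.inl (fun t ht => by rw [ht]; exact h))
    · exact Or.inr (Or.inr (fun t ht ht' => h (by rw [← ht']; exact ht)))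
  · apply key (fun t' => t' = t) (fun t => t ∈ B')
    by_cases h : t ∈ B'
    · exact Or.inl (fun t' ht => by rw [ht]; exact h)
    · exact Or.inr (Or.inr (fun t' ht ht' => h (by rw [← ht]; exact ht')))
  · apply key (fun s => s = t) (fun s => s = t')
    by_cases h : t = t'
    · exact Or.inl (fun s hs => hs.trans h)
    · exact Or.inr (Or.inr (fun s hs hs' => h (hs.symm.trans hs')))

theorem pull_subset (X : Finset α) (F : Set (Set β)) (f : α → β) :
    ∀ G ∈ pull X F f, G ⊆ X := fun _ hG => mem_powerset.mp (mem_filter.mp hG).1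

theorem mem_pull_set (X : Finset α) (F : Set (Set β)) (f : α → β) {A : Set β} (hA : A ∈ F) :
    X.filter (fun x => f x ∈ A) ∈ pull X F f :=
  mem_filter.mpr ⟨mem_powerset.mpr (filter_subset _ _), Or.inl ⟨A, hA, rfl⟩⟩

theorem mem_pull_pt (X : Finset α) (F : Set (Set β)) (f : α → β) (t : β) :
    X.filter (fun x => f x = t) ∈ pull X F f :=
  mem_filter.mpr ⟨mem_powerset.mpr (filter_subset _ _), Or.inr ⟨t, rfl⟩⟩

/-- If a laminar structure of the right density sits below `M`, then `M` is cyclically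
orderable. -/
theorem orderable_of_map {M : Matroid α} (hE : M.E.Finite) {B₀ : Set α} (hB₀ : M.IsBase B₀)
    (f : α → β) (F : Set (Set β)) (hF : LaminarFamily F) (c : Set β → ℕ)
    (hI : ∀ W ⊆ M.E, Set.InjOn f W → (∀ A ∈ F, (f '' W ∩ A).ncard ≤ c A) → M.Indep W)
    (hA : ∀ A ∈ F, (M.E ∩ f ⁻¹' A).ncard * B₀.ncard ≤ c A * M.E.ncard)
    (ht : ∀ t, (M.E ∩ f ⁻¹' {t}).ncard * B₀.ncard ≤ M.E.ncard) :
    CyclicallyOrderable M B₀.ncard := by
  set X := hE.toFinset with hX
  have hXE : (X : Set α) = M.E := hE.coe_toFinset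
  have hn : X.card = M.E.ncard := by rw [← Set.ncard_coe_finset, hXE]
  have hr : B₀.ncard ≤ X.card := by
    rw [hn]
    exact Set.ncard_le_ncard hB₀.subset_ground hE
  obtain ⟨σ, h1, h2, h3⟩ := cyc X B₀.ncard hr (pull X F f) (pull_laminar X F hF f)
    (pull_subset X F f)
  unfold CyclicallyOrderable
  rw [← hn]
  refine ⟨σ, h1, by rw [h2, hXE], ?_⟩
  intro i
  have hW : window σ B₀.ncard i ⊆ M.E := by
    rw [← hXE, ← h2]
    exact window_subset σ _ i
  have hWfin : (window σ B₀.ncard i).Finite := hE.subset hW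
  have hconv : ∀ S : Set β, ((X.filter (fun x => f x ∈ S)).card) = (M.E ∩ f ⁻¹' S).ncard := by
    intro S
    rw [← Set.ncard_coe_finset]
    congr 1
    ext x
    rw [← hXE]
    simp
  apply isBase_of_indep hE hB₀ _ (window_ncard σ h1 _ hr i)
  apply hI _ hW
  · intro x hx y hy hxy
    by_contra hne
    have h4 := h3 i _ (mem_pull_pt X F f (f x)) 1 (by
      have h5 := ht (f x)
      have h6 := hconv {f x}
      simp only [Set.mem_singleton_iff] at h6
      rw [h6, hn, Nat.one_mul]
      exact h5)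
    have h7 : ({x, y} : Set α) ⊆ window σ B₀.ncard i ∩ (X.filter (fun z => f z = f x)) := by
      have hxX : x ∈ X := by
        have := hW hx
        rw [← hXE] at this
        exact mem_coe.mp this
      have hyX : y ∈ X := by
        have := hW hy
        rw [← hXE] at this
        exact mem_coe.mp this
      intro z hz
      rcases hz with rfl | hz
      · exact ⟨hx, mem_coe.mpr (mem_filter.mpr ⟨hxX, rfl⟩)⟩
      · rw [Set.mem_singleton_iff] at hz
        rw [hz]
        exact ⟨hy, mem_coe.mpr (mem_filter.mpr ⟨hyX, hxy.symm⟩)⟩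
    have h8 := Set.ncard_le_ncard h7 (hWfin.subset Set.inter_subset_left)
    rw [Set.ncard_pair hne] at h8
    omega
  · intro A hAF
    have h4 := h3 i _ (mem_pull_set X F f hAF) (c A) (by
      rw [hconv A, hn]
      exact hA A hAF)
    refine le_trans ?_ h4
    have h5 : f '' window σ B₀.ncard i ∩ A ⊆
        f '' (window σ B₀.ncard i ∩ (X.filter (fun x => f x ∈ A))) := by
      rintro y ⟨⟨x, hx, rfl⟩, hy⟩
      refine ⟨x, ⟨hx, ?_⟩, rfl⟩
      have hxX : x ∈ X := by
        have := hW hx
        rw [← hXE] at this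
        exact mem_coe.mp this
      exact mem_coe.mpr (mem_filter.mpr ⟨hxX, hy⟩)
    have h6 : (window σ B₀.ncard i ∩ (X.filter (fun x => f x ∈ A))).Finite :=
      hWfin.subset Set.inter_subset_left
    exact (Set.ncard_le_ncard h5 (h6.image f)).trans (Set.ncard_image_le h6)

theorem card_le_of_idx (G : Finset α) (k c : ℕ) (idx : α → Fin k)
    (h : ∀ i, (G.filter (fun x => idx x = i)).card ≤ c) : G.card ≤ k * c := by
  have h1 := Finset.card_le_mul_card_image (f := idx) G c (fun i _ => h i)
  have h2 : (G.image idx).card ≤ k := by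
    have := Finset.card_le_univ (G.image idx)
    rwa [Fintype.card_fin] at this
  calc G.card ≤ c * (G.image idx).card := h1
    _ ≤ c * k := Nat.mul_le_mul_left c h2
    _ = k * c := Nat.mul_comm _ _

theorem induced {M : Matroid α} (hE : M.E.Finite) (R : α → β → Prop) (F : Set (Set β))
    (c : Set β → ℕ) (hM : InducedFromLaminar M R F c) (k : ℕ) (hk : 1 ≤ k) (B : Fin k → Set α)
    (hB : ∀ i, M.IsBase (B i)) (hd : ∀ i j, i ≠ j → Disjoint (B i) (B j))
    (hu : ⋃ i, B i = M.E) : CyclicallyOrderable M (M.E.ncard / k) := by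
  obtain ⟨hF, hM⟩ := hM
  let i0 : Fin k := ⟨0, hk⟩
  set r := (B i0).ncard with hr
  have hBr : ∀ i, (B i).ncard = r := fun i => (hB i).ncard_eq_ncard_of_isBase (hB i0)
  have hXE : ((hE.toFinset : Finset α) : Set α) = M.E := hE.coe_toFinset
  have hn : M.E.ncard = k * r := by
    rw [← hXE, Set.ncard_coe_finset]
    exact union_card _ k r B hd (by rw [hXE, hu]) hBr
  have hnk : M.E.ncard / k = r := by rw [hn, Nat.mul_div_cancel_left _ hk]
  rw [hnk]
  have hf : ∀ i, ∃ f : α → β, Set.InjOn f (B i) ∧ (∀ x ∈ B i, R x (f x)) ∧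
      ∀ A ∈ F, (f '' (B i) ∩ A).ncard ≤ c A := fun i =>
    (hM (B i) (hB i).subset_ground).mp (hB i).indep
  choose f hf1 hf2 hf3 using hf
  have hidx : ∀ x, ∃ i, x ∈ M.E → x ∈ B i := by
    intro x
    by_cases hx : x ∈ M.E
    · rw [← hu] at hx
      obtain ⟨i, hi⟩ := Set.mem_iUnion.mp hx
      exact ⟨i, fun _ => hi⟩
    · exact ⟨i0, fun h => absurd h hx⟩
  choose idx hidx using hidx
  have hfin : ∀ S : Set α, S ⊆ M.E → S.Finite := fun S hS => hE.subset hS
  -- count through the bases
  have hcount : ∀ (S : Set β) (d : ℕ), (∀ i, (f i '' (B i) ∩ S).ncard ≤ d) →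
      (M.E ∩ (fun x => f (idx x) x) ⁻¹' S).ncard ≤ k * d := by
    intro S d hS
    have hSfin : (M.E ∩ (fun x => f (idx x) x) ⁻¹' S).Finite := hfin _ Set.inter_subset_left
    rw [Set.ncard_eq_toFinset_card _ hSfin]
    apply card_le_of_idx _ k d idx
    intro i
    refine le_trans ?_ (hS i)
    rw [← Set.ncard_coe_finset]
    have hsub : ((hSfin.toFinset.filter (fun x => idx x = i) : Finset α) : Set α) ⊆
        B i ∩ (f i) ⁻¹' S := by
      intro x hx
      simp only [coe_filter, Set.Finite.mem_toFinset, Set.mem_inter_iff, Set.mem_preimage,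
        Set.mem_ofPred_eq] at hx
      obtain ⟨⟨hx1, hx2⟩, hx3⟩ := hx
      have h4 := hidx x hx1
      rw [hx3] at h4 hx2
      exact ⟨h4, hx2⟩
    have h5 : (B i ∩ (f i) ⁻¹' S).Finite :=
      hfin _ (Set.inter_subset_left.trans (hB i).subset_ground)
    refine (Set.ncard_le_ncard hsub h5).trans ?_
    have h6 : (f i '' (B i ∩ (f i) ⁻¹' S)).ncard = (B i ∩ (f i) ⁻¹' S).ncard :=
      Set.InjOn.ncard_image ((hf1 i).mono Set.inter_subset_left)
    rw [← h6, Set.image_inter_preimage]
  have hmain := orderable_of_map hE (hB i0) (fun x => f (idx x) x) F hF c ?_ ?_ ?_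
  · exact hmain
  · intro W hW hinj hA
    refine (hM W hW).mpr ⟨fun x => f (idx x) x, hinj, ?_, hA⟩
    intro x hx
    exact hf2 (idx x) x (hidx x (hW hx))
  · intro A hA
    have h1 := hcount A (c A) (fun i => hf3 i A hA)
    calc (M.E ∩ (fun x => f (idx x) x) ⁻¹' A).ncard * (B i0).ncard
        ≤ (k * c A) * r := Nat.mul_le_mul_right r h1
      _ = c A * M.E.ncard := by rw [hn]; ring
  · intro t
    have h1 := hcount {t} 1 (fun i => by
      have : (f i '' (B i) ∩ {t}).ncard ≤ ({t} : Set β).ncard :=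
        Set.ncard_le_ncard Set.inter_subset_right
      rwa [Set.ncard_singleton] at this)
    calc (M.E ∩ (fun x => f (idx x) x) ⁻¹' {t}).ncard * (B i0).ncard
        ≤ (k * 1) * r := Nat.mul_le_mul_right r h1
      _ = M.E.ncard := by rw [hn, Nat.mul_one]

/-- The complement of a window is a window. -/
theorem compl_window {n : ℕ} (σ : Fin n → α) (hσ : Function.Injective σ) (r : ℕ) (hr : r ≤ n)
    (i : Fin n) : Set.range σ \ window σ r i =
      window σ (n - r) ⟨(i.val + r) % n, Nat.mod_lt _ (Fin.pos i)⟩ := by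
  symm
  have hfin : (Set.range σ).Finite := Set.finite_range σ
  apply Set.eq_of_subset_of_ncard_le
  · intro x hx
    refine ⟨window_subset σ _ _ hx, ?_⟩
    rintro ⟨j, hj, hx2⟩
    obtain ⟨j', hj', hx1⟩ := hx
    rw [hx1] at hx2
    have h1 := congrArg Fin.val (hσ hx2)
    simp only at h1
    rw [Nat.mod_add_mod] at h1
    have h2 : i.val + (r + j') ≡ i.val + j [MOD n] := by
      rw [← Nat.add_assoc]
      exact h1
    have h3 : r + j' ≡ j [MOD n] := Nat.ModEq.add_left_cancel' _ h2
    have h4 := Nat.ModEq.eq_of_lt_of_lt h3 (by omega) (by omega)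
    omega
  · rw [window_ncard σ hσ (n - r) (by omega), Set.ncard_sdiff (window_subset σ r i)
      (hfin.subset (window_subset σ r i)), window_ncard σ hσ r hr,
      ← Set.image_univ, Set.ncard_image_of_injective _ hσ, Set.ncard_univ,
      Nat.card_eq_fintype_card, Fintype.card_fin]
  · exact hfin.subset Set.sdiff_subset

theorem colaminar {M : Matroid α} (hE : M.E.Finite) (hM : IsLaminar M✶) (k : ℕ) (hk : 1 ≤ k)
    (B : Fin k → Set α) (hB : ∀ i, M.IsBase (B i)) (hd : ∀ i j, i ≠ j → Disjoint (B i) (B j))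
    (hu : ⋃ i, B i = M.E) : CyclicallyOrderable M (M.E.ncard / k) := by
  obtain ⟨F, c, hF, hM⟩ := hM
  let i0 : Fin k := ⟨0, hk⟩
  set r := (B i0).ncard with hr
  have hBr : ∀ i, (B i).ncard = r := fun i => (hB i).ncard_eq_ncard_of_isBase (hB i0)
  have hXE : ((hE.toFinset : Finset α) : Set α) = M.E := hE.coe_toFinset
  have hn : M.E.ncard = k * r := by
    rw [← hXE, Set.ncard_coe_finset]
    exact union_card _ k r B hd (by rw [hXE, hu]) hBr
  have hnk : M.E.ncard / k = r := by rw [hn, Nat.mul_div_cancel_left _ hk]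
  have hrn : r ≤ M.E.ncard := by
    rw [hn]
    exact Nat.le_mul_of_pos_left r hk
  rw [hnk]
  have hEd : M✶.E.Finite := by rw [Matroid.dual_ground]; exact hE
  have hB0 : M✶.IsBase (M.E \ B i0) := (hB i0).compl_isBase_dual
  have hB0c : (M.E \ B i0).ncard = M.E.ncard - r := by
    rw [Set.ncard_sdiff (hB i0).subset_ground (hE.subset (hB i0).subset_ground)]
  have hidx : ∀ x, ∃ i, x ∈ M.E → x ∈ B i := by
    intro x
    by_cases hx : x ∈ M.E
    · rw [← hu] at hx
      obtain ⟨i, hi⟩ := Set.mem_iUnion.mp hx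
      exact ⟨i, fun _ => hi⟩
    · exact ⟨i0, fun h => absurd h hx⟩
  choose idx hidx using hidx
  have hmain := orderable_of_map hEd hB0 (id : α → α) F hF c ?_ ?_ ?_
  · rw [hB0c] at hmain
    unfold CyclicallyOrderable at hmain ⊢
    rw [Matroid.dual_ground] at hmain
    obtain ⟨σ, h1, h2, h3⟩ := hmain
    refine ⟨σ, h1, h2, ?_⟩
    intro i
    have h4 := h3 ⟨(i.val + r) % M.E.ncard, Nat.mod_lt _ (Fin.pos i)⟩
    rw [← compl_window σ h1 r hrn i, h2] at h4
    have h5 := (Matroid.dual_isBase_iff'.mp h4).1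
    rwa [Set.sdiff_sdiff_cancel_left] at h5
    exact fun x hx => h2.subset (window_subset σ r i hx)
  · intro W hW _ hA
    refine (hM W hW).mpr ?_
    intro A hAF
    have := hA A hAF
    rwa [Set.image_id] at this
  · intro A hA
    rw [hB0c, Matroid.dual_ground, Set.preimage_id]
    have hSfin : (M.E ∩ A).Finite := hE.subset Set.inter_subset_left
    have hcard : (M.E ∩ A).ncard =
        ∑ i : Fin k, (hSfin.toFinset.filter (fun x => idx x = i)).card := by
      rw [Set.ncard_eq_toFinset_card _ hSfin]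
      exact card_eq_sum_card_fiberwise (fun x _ => mem_coe.mpr (mem_univ _))
    -- an index with a small share
    obtain ⟨i, hi⟩ : ∃ i : Fin k,
        k * (hSfin.toFinset.filter (fun x => idx x = i)).card ≤ (M.E ∩ A).ncard := by
      by_contra hcon
      push Not at hcon
      have h1 : ∑ i : Fin k, ((M.E ∩ A).ncard + 1) ≤
          ∑ i : Fin k, k * (hSfin.toFinset.filter (fun x => idx x = i)).card :=
        sum_le_sum (fun i _ => hcon i)
      rw [← mul_sum, ← hcard, sum_const, card_univ, Fintype.card_fin, smul_eq_mul,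
        Nat.mul_add] at h1
      omega
    have h1 : ((M.E \ B i) ∩ A).ncard ≤ c A :=
      (hM (M.E \ B i) (by rw [Matroid.dual_ground]; exact Set.sdiff_subset)).mp
        ((hB i).compl_isBase_dual).indep A hA
    have h2 : (M.E ∩ A).ncard ≤ ((M.E \ B i) ∩ A).ncard +
        (hSfin.toFinset.filter (fun x => idx x = i)).card := by
      rw [← Set.ncard_coe_finset]
      refine le_trans (Set.ncard_le_ncard ?_ ?_) (Set.ncard_union_le _ _)
      · intro x hx
        by_cases hxi : x ∈ B i
        · right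
          have h3 : idx x = i := by
            by_contra hne
            exact Set.disjoint_left.mp (hd _ _ hne) (hidx x hx.1) hxi
          simp only [coe_filter, Set.Finite.mem_toFinset, Set.mem_ofPred_eq]
          exact ⟨hx, h3⟩
        · left
          exact ⟨⟨hx.1, hxi⟩, hx.2⟩
      · exact ((hE.subset Set.sdiff_subset).subset Set.inter_subset_left).union
          (Finset.finite_toSet _)
    have h3 : (k - 1) * (M.E ∩ A).ncard ≤ k * c A := by
      set a := (M.E ∩ A).ncard
      set b := (hSfin.toFinset.filter (fun x => idx x = i)).card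
      have h4 : k * a ≤ k * (c A + b) := Nat.mul_le_mul_left k (h2.trans (by omega))
      rw [Nat.mul_add] at h4
      rw [Nat.sub_mul, Nat.one_mul]
      omega
    have h4 : M.E.ncard - r = (k - 1) * r := by
      rw [hn, Nat.sub_mul, Nat.one_mul]
    rw [h4]
    calc (M.E ∩ A).ncard * ((k - 1) * r) = ((k - 1) * (M.E ∩ A).ncard) * r := by ring
      _ ≤ (k * c A) * r := Nat.mul_le_mul_right r h3
      _ = c A * M.E.ncard := by rw [hn]; ring
  · intro t
    rw [hB0c, Matroid.dual_ground, Set.preimage_id]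
    have h1 : (M.E ∩ {t}).ncard ≤ 1 := by
      have : (M.E ∩ {t}).ncard ≤ ({t} : Set α).ncard :=
        Set.ncard_le_ncard Set.inter_subset_right
      rwa [Set.ncard_singleton] at this
    calc (M.E ∩ {t}).ncard * (M.E.ncard - r) ≤ 1 * (M.E.ncard - r) := Nat.mul_le_mul_right _ h1
      _ ≤ M.E.ncard := by omega

end Pool.Agent.Helper57.CO
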