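import Mathlib
import Pool.Agent.Helper57.CO.Defs
import Pool.Agent.Helper57.CO.Mat

/-!
MP_f2948c_co, Q1 (cyclic orderings of matroids): the conjecture holds, for every `k`, for every
matroid whose dual is a laminar matroid.
-/

namespace Pool.Agent.Helper57.CO.DualLaminar

open Pool.Agent.Helper57.CO

/-- If the dual of `M` is laminar and the ground set of `M` is the disjoint union of `k` bases,
then it has a cyclic ordering in which every window of `|E| / k` cyclically consecutive elements
is a base. -/
theorem result {α : Type*} (M : Matroid α) (hE : M.E.Finite) (hM : IsLaminar M✶) (k : ℕ)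
    (hk : 1 ≤ k) (B : Fin k → Set α) (hB : ∀ i, M.IsBase (B i))
    (hd : ∀ i j, i ≠ j → Disjoint (B i) (B j)) (hu : ⋃ i, B i = M.E) :
    CyclicallyOrderable M (M.E.ncard / k) :=
  colaminar hE hM k hk B hB hd hu

end Pool.Agent.Helper57.CO.DualLaminar
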