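import Mathlib
import Pool.Agent.Helper57.CO.Defs
import Pool.Agent.Helper57.CO.Mat

/-!
MP_f2948c_co, Q1 (cyclic orderings of matroids): the conjecture holds, for every `k`, for every
matroid induced by a bipartite graph from a laminar matroid. This class contains all laminar
matroids (`R` is equality), all transversal matroids (`F` is empty) and all their truncations.
-/

namespace Pool.Agent.Helper57.CO.InducedLaminar

open Pool.Agent.Helper57.CO

/-- If `M` is induced by a bipartite graph from a laminar matroid and its ground set is the
disjoint union of `k` bases, then the ground set has a cyclic ordering in which every window of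
`|E| / k` cyclically consecutive elements is a base. -/
theorem result {α β : Type*} (M : Matroid α) (hE : M.E.Finite) (R : α → β → Prop)
    (F : Set (Set β)) (c : Set β → ℕ) (hM : InducedFromLaminar M R F c) (k : ℕ) (hk : 1 ≤ k)
    (B : Fin k → Set α) (hB : ∀ i, M.IsBase (B i)) (hd : ∀ i j, i ≠ j → Disjoint (B i) (B j))
    (hu : ⋃ i, B i = M.E) : CyclicallyOrderable M (M.E.ncard / k) :=
  induced hE R F c hM k hk B hB hd hu

end Pool.Agent.Helper57.CO.InducedLaminar
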