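import Mathlib
import Pool.Agent.Helper57.CO.Defs

/-!
Sanity checks for the definitions: laminar matroids are induced from laminar matroids, transversal
matroids are the case of the empty family.
-/

namespace Pool.Agent.Helper57.CO

variable {α β : Type*}

theorem laminar_induced (M : Matroid α) (F : Set (Set α)) (c : Set α → ℕ) (hF : LaminarFamily F)
    (hM : ∀ I ⊆ M.E, (M.Indep I ↔ ∀ A ∈ F, (I ∩ A).ncard ≤ c A)) :
    InducedFromLaminar M (fun x y => x = y) F c := by
  refine ⟨hF, ?_⟩
  intro I hI
  rw [hM I hI]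
  constructor
  · intro h
    refine ⟨id, Set.injOn_id I, fun x _ => rfl, ?_⟩
    intro A hA
    rw [Set.image_id]
    exact h A hA
  · rintro ⟨f, _, hf, h⟩
    have h1 : f '' I = I := by
      have h2 : f '' I = id '' I := Set.image_congr (fun x hx => (hf x hx).symm)
      rw [h2, Set.image_id]
    intro A hA
    have := h A hA
    rwa [h1] at this

theorem transversal_induced (M : Matroid α) (R : α → β → Prop)
    (hM : ∀ I ⊆ M.E, (M.Indep I ↔ ∃ f : α → β, Set.InjOn f I ∧ ∀ x ∈ I, R x (f x))) :
    InducedFromLaminar M R ∅ (fun _ => 0) := by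
  refine ⟨by intro A hA; exact absurd hA (Set.notMem_empty A), ?_⟩
  intro I hI
  rw [hM I hI]
  constructor
  · rintro ⟨f, h1, h2⟩
    exact ⟨f, h1, h2, fun A hA => absurd hA (Set.notMem_empty A)⟩
  · rintro ⟨f, h1, h2, _⟩
    exact ⟨f, h1, h2⟩

end Pool.Agent.Helper57.CO
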